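import Pool.Agent.Helper39.DL.Goals

/-! DL: NC, close elements of a finite group commute. -/

namespace Pool.Agent.Helper79.DL

open Module Pool.Agent.Helper31.Del Pool.Agent.Helper39.DL

section

variable (E : Type) [NormedAddCommGroup E] [InnerProductSpace ℝ E]

variable {E} in
theorem step {A C : E ≃ₗᵢ[ℝ] E} {c : ℝ} (hc : 0 ≤ c) (hA : Nr A (1 / 4)) (hC : Nr C c) :
    Nr (A * C * A⁻¹ * C⁻¹) (c / 2) := by
  intro v
  set w : E := A⁻¹ (C⁻¹ v) with hw
  have hAw : A w = C⁻¹ v := A.apply_symm_apply _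
  have hv : C (A w) = v := by rw [hAw]; exact C.apply_symm_apply _
  have hn : ‖w‖ = ‖v‖ := by
    rw [← hv, C.norm_map, A.norm_map]
  have h1 : (A * C * A⁻¹ * C⁻¹) v = A (C w) := rfl
  have h2 : A (C w) - v = (A (C w - w) - (C w - w)) - (C (A w - w) - (A w - w)) := by
    rw [map_sub, map_sub, hv]
    abel
  rw [h1, h2]
  have h3 : ‖A (C w - w) - (C w - w)‖ ≤ 1 / 4 * (c * ‖w‖) :=
    (hA _).trans (mul_le_mul_of_nonneg_left (hC w) (by norm_num))
  have h4 : ‖C (A w - w) - (A w - w)‖ ≤ c * (1 / 4 * ‖w‖) :=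
    (hC _).trans (mul_le_mul_of_nonneg_left (hA w) hc)
  calc _ ≤ ‖A (C w - w) - (C w - w)‖ + ‖C (A w - w) - (A w - w)‖ := norm_sub_le _ _
    _ ≤ 1 / 4 * (c * ‖w‖) + c * (1 / 4 * ‖w‖) := add_le_add h3 h4
    _ = c / 2 * ‖v‖ := by rw [hn]; ring

variable {E} in
theorem gap (G : Subgroup (E ≃ₗᵢ[ℝ] E)) (hG : Finite G) :
    ∃ c₀ > 0, ∀ g ∈ G, ∀ c ≤ c₀, Nr g c → g = 1 := by
  have h1 : ∀ g : E ≃ₗᵢ[ℝ] E, ∃ c > 0, ∀ c' ≤ c, Nr g c' → g = 1 := by
    intro g
    by_cases hg : g = 1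
    · exact ⟨1, one_pos, fun _ _ _ => hg⟩
    · obtain ⟨v, hv⟩ : ∃ v, g v ≠ v := by
        by_contra hcon
        push Not at hcon
        exact hg (LinearIsometryEquiv.ext hcon)
      have hv0 : v ≠ 0 := by
        rintro rfl
        exact hv (map_zero g)
      have hvp : 0 < ‖v‖ := norm_pos_iff.2 hv0
      have hgp : 0 < ‖g v - v‖ := norm_pos_iff.2 (sub_ne_zero.2 hv)
      refine ⟨‖g v - v‖ / (2 * ‖v‖), by positivity, fun c' hc' hN => ?_⟩
      exfalso
      have h2 := hN v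
      have h3 : c' * ‖v‖ ≤ ‖g v - v‖ / (2 * ‖v‖) * ‖v‖ := mul_le_mul_of_nonneg_right hc' hvp.le
      have h4 : ‖g v - v‖ / (2 * ‖v‖) * ‖v‖ = ‖g v - v‖ / 2 := by field_simp
      linarith
  choose c hc1 hc2 using h1
  obtain ⟨g₀, hg₀⟩ := Finite.exists_min fun g : G => c g
  exact ⟨c g₀, hc1 _, fun g hg c' hc' hN => hc2 g c' (hc'.trans (hg₀ ⟨g, hg⟩)) hN⟩

theorem nearComm [FiniteDimensional ℝ E] (h : Frob E) : NearComm E := by
  classical
  intro G hG A hA B hB hnA hnB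
  let C : ℕ → (E ≃ₗᵢ[ℝ] E) := fun n => Nat.rec B (fun _ c => A * c * A⁻¹ * c⁻¹) n
  have hC0 : C 0 = B := rfl
  have hCs : ∀ n, C (n + 1) = A * C n * A⁻¹ * (C n)⁻¹ := fun n => rfl
  have hmem : ∀ n, C n ∈ G := by
    intro n
    induction n with
    | zero => exact hB
    | succ n ih =>
      rw [hCs]
      exact G.mul_mem (G.mul_mem (G.mul_mem hA ih) (G.inv_mem hA)) (G.inv_mem ih)
  have hnear : ∀ n, Nr (C n) (1 / 4 / 2 ^ n) := by
    intro n
    induction n with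
    | zero => rw [pow_zero, div_one]; exact hnB
    | succ n ih =>
      rw [hCs, pow_succ, ← div_div]
      exact step (by positivity) hnA ih
  obtain ⟨c₀, hc₀, hgap⟩ := gap G hG
  have hex : ∃ n, C n = 1 := by
    obtain ⟨n, hn⟩ := exists_pow_lt_of_lt_one hc₀ (show (1 / 2 : ℝ) < 1 by norm_num)
    refine ⟨n, hgap _ (hmem n) (1 / 4 / 2 ^ n) ?_ (hnear n)⟩
    rw [one_div_pow] at hn
    have h2 : (0 : ℝ) < 1 / 2 ^ n := by positivity
    have h3 : (1 / 4 / 2 ^ n : ℝ) = 1 / 4 * (1 / 2 ^ n) := by ring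
    rw [h3]
    linarith
  have key : ∀ n, C n = 1 → A * B = B * A := by
    intro n
    induction n with
    | zero =>
      intro hfind
      rw [hC0] at hfind
      rw [hfind, mul_one, one_mul]
    | succ n ih =>
      intro hfind
      rw [hCs] at hfind
      have h1 : A * C n * A⁻¹ = C n := mul_inv_eq_one.1 hfind
      have h2 : A * C n = C n * A := mul_inv_eq_iff_eq_mul.1 h1
      rcases n with _ | j
      · exact h2
      · have h3 : Nr (C j) (1 / 4) := by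
          intro v
          refine (hnear j v).trans (mul_le_mul_of_nonneg_right ?_ (norm_nonneg _))
          have h4 : (1 : ℝ) ≤ 2 ^ j := one_le_pow₀ (by norm_num)
          exact div_le_self (by norm_num) h4
        exact ih (h A (C j) h3 h2)
  obtain ⟨n, hn⟩ := hex
  exact key n hn

end

end Pool.Agent.Helper79.DL
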