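import Pool.Agent.Helper30.DL.GoalsD

/-! MP_b4564f_an, packet S3S: soundness of `s3C` and `serC`. -/

set_option autoImplicit false

namespace Pool.Agent.Helper79.DL

open Pool.Agent.Helper30.DL

section afs

variable (hA : AfsStmt) {x y z : ℝ} (hx : |x| ≤ 1) (hy : |y| ≤ 1) (hz : |z| ≤ 1)
  {A B : AF} {v w : ℝ}

include hA hx hy hz

theorem e_add (h1 : A.Enc x y z v) (h2 : B.Enc x y z w) : (A + B).Enc x y z (v + w) :=
  (hA x y z hx hy hz A B v w h1 h2).1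

theorem e_sub (h1 : A.Enc x y z v) (h2 : B.Enc x y z w) : (A - B).Enc x y z (v - w) :=
  (hA x y z hx hy hz A B v w h1 h2).2.1

theorem e_mul (h1 : A.Enc x y z v) (h2 : B.Enc x y z w) : (A * B).Enc x y z (v * w) :=
  (hA x y z hx hy hz A B v w h1 h2).2.2.1

theorem e_mag (h1 : A.Enc x y z v) : |10000000000 * v| ≤ (A.mag : ℝ) :=
  (hA x y z hx hy hz A A v v h1 h1).2.2.2.2.2.2.1

theorem e_hi (h1 : A.Enc x y z v) : 10000000000 * v ≤ ((A.hi : ℤ) : ℝ) :=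
  (hA x y z hx hy hz A A v v h1 h1).2.2.2.2.2.2.2.2.2

theorem e_k3 {K : Gs AF} {R : Gs ℝ} (hK : EncGs K x y z R) (h1 : A.Enc x y z v) :
    (k3 K A).Enc x y z (k3 R v) := by
  unfold k3
  refine e_add hA hx hy hz hK.c3 (e_mul hA hx hy hz h1 ?_)
  refine e_add hA hx hy hz hK.c4 (e_mul hA hx hy hz h1 ?_)
  refine e_add hA hx hy hz hK.c5 (e_mul hA hx hy hz h1 ?_)
  refine e_add hA hx hy hz hK.c6 (e_mul hA hx hy hz h1 ?_)
  refine e_add hA hx hy hz hK.c7 (e_mul hA hx hy hz h1 ?_)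
  exact hK.c8

end afs

theorem tb_el {T : Tb AF} {x y z : ℝ} {R : Tb ℝ} (h : EncTb T x y z R) :
    T.C.el.a.Enc x y z R.C.el.a ∧ T.C.el.b.Enc x y z R.C.el.b ∧ T.C.ek.Enc x y z R.C.ek := by
  have h1 := (List.forall₂_iff_get.1 h).2
  refine ⟨?_, ?_, ?_⟩
  · exact h1 58 (by show 58 < 81; norm_num) (by show 58 < 81; norm_num)
  · exact h1 59 (by show 59 < 81; norm_num) (by show 59 < 81; norm_num)
  · exact h1 60 (by show 60 < 81; norm_num) (by show 60 < 81; norm_num)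

theorem enc_c8 {x y z c8 : ℝ} (h : |c8| ≤ 145 / 1000000) : (AF.cst 0 0 1450000).Enc x y z c8 := by
  unfold AF.Enc AF.cst
  simp only [Nat.cast_zero, sub_zero, zero_mul, add_zero, Nat.cast_ofNat]
  rw [abs_mul, abs_of_pos (by norm_num : (0 : ℝ) < 10000000000)]
  linarith

theorem tb_K0 {T : Tb AF} {x y z : ℝ} {P : Pm} {em t c8 : ℝ} (h : EncTb T x y z (mkTb P em t))
    (h8 : T.K0.c8 = AF.cst 0 0 1450000) (hc : |c8| ≤ 145 / 1000000) :
    EncGs T.K0 x y z (mkGs t 0 c8) := by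
  have h1 := (List.forall₂_iff_get.1 h).2
  refine ⟨?_, ?_, ?_, ?_, ?_, ?_, ?_, ?_⟩
  · exact h1 61 (by show 61 < 81; norm_num) (by show 61 < 81; norm_num)
  · exact h1 62 (by show 62 < 81; norm_num) (by show 62 < 81; norm_num)
  · exact h1 63 (by show 63 < 81; norm_num) (by show 63 < 81; norm_num)
  · exact h1 64 (by show 64 < 81; norm_num) (by show 64 < 81; norm_num)
  · exact h1 65 (by show 65 < 81; norm_num) (by show 65 < 81; norm_num)
  · exact h1 66 (by show 66 < 81; norm_num) (by show 66 < 81; norm_num)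
  · exact h1 67 (by show 67 < 81; norm_num) (by show 67 < 81; norm_num)
  · rw [h8]
    exact enc_c8 hc

theorem tb_K1 {T : Tb AF} {x y z : ℝ} {P : Pm} {em t c8 : ℝ} (h : EncTb T x y z (mkTb P em t))
    (h8 : T.K1.c8 = AF.cst 0 0 1450000) (hc : |c8| ≤ 145 / 1000000) :
    EncGs T.K1 x y z (mkGs t em c8) := by
  have h1 := (List.forall₂_iff_get.1 h).2
  refine ⟨?_, ?_, ?_, ?_, ?_, ?_, ?_, ?_⟩
  · exact h1 68 (by show 68 < 81; norm_num) (by show 68 < 81; norm_num)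
  · exact h1 69 (by show 69 < 81; norm_num) (by show 69 < 81; norm_num)
  · exact h1 70 (by show 70 < 81; norm_num) (by show 70 < 81; norm_num)
  · exact h1 71 (by show 71 < 81; norm_num) (by show 71 < 81; norm_num)
  · exact h1 72 (by show 72 < 81; norm_num) (by show 72 < 81; norm_num)
  · exact h1 73 (by show 73 < 81; norm_num) (by show 73 < 81; norm_num)
  · exact h1 74 (by show 74 < 81; norm_num) (by show 74 < 81; norm_num)
  · rw [h8]
    exact enc_c8 hc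

/-- a point of an interval -/
theorem enc_ofX {lo h : ℤ} (hh : 1 ≤ h) {a : ℝ} (h1 : (lo : ℝ) ≤ 10000000000 * a)
    (h2 : 10000000000 * a ≤ (lo : ℝ) + h) :
    ∃ x : ℝ, |x| ≤ 1 ∧ ∀ y z : ℝ, (AF.ofX lo (lo + h)).Enc x y z a := by
  obtain ⟨c, hc⟩ : ∃ c : ℤ, c = (lo + (lo + h)) / 2 := ⟨_, rfl⟩
  obtain ⟨d, hd⟩ : ∃ d : ℤ, d = (lo + h - lo + 1) / 2 := ⟨_, rfl⟩
  have hd1 : 1 ≤ d := by omega
  have hlo : c - d ≤ lo := by omega
  have hhi : lo + h ≤ c + d := by omega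
  have hlo' : (c : ℝ) - d ≤ lo := by exact_mod_cast hlo
  have hhi' : (lo : ℝ) + h ≤ c + d := by exact_mod_cast hhi
  have hd0 : (0 : ℝ) < d := by exact_mod_cast (by omega : (0 : ℤ) < d)
  refine ⟨(10000000000 * a - c) / d, ?_, ?_⟩
  · rw [abs_div, abs_of_pos hd0, div_le_one hd0, abs_le]
    constructor <;> linarith
  · intro y z
    unfold AF.Enc AF.ofX
    have e1 : (((lo + (lo + h)) / 2).toNat : ℝ) - ((-((lo + (lo + h)) / 2)).toNat : ℝ) = c := by
      rw [← hc]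
      have : ((c.toNat : ℤ) : ℤ) - ((-c).toNat : ℤ) = c := by omega
      exact_mod_cast this
    have e2 : (((lo + h - lo + 1) / 2).toNat : ℝ) = d := by
      rw [← hd]
      have : ((d.toNat : ℤ) : ℤ) = d := by omega
      exact_mod_cast this
    simp only [Nat.cast_zero, sub_zero, zero_mul, add_zero]
    rw [e1, e2, mul_div_cancel₀ _ hd0.ne']
    simp

/-- one of the intervals contains the point -/
theorem ser_cover {K0 K1 : Gs AF} {ebt k2 h : ℤ} : ∀ (n : ℕ) (lo : ℤ),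
    serC K0 K1 ebt k2 h (n + 1) lo = true → ∀ a : ℝ, (lo : ℝ) ≤ 10000000000 * a →
    10000000000 * a ≤ (lo : ℝ) + ((n : ℝ) + 1) * h →
    ∃ lo' : ℤ, (lo' : ℝ) ≤ 10000000000 * a ∧ 10000000000 * a ≤ (lo' : ℝ) + h ∧
      (K0.c1 - K1.c1 + AF.ofX lo' (lo' + h) * (K0.c2 - K1.c2 + AF.ofX lo' (lo' + h) *
        (k3 K0 (AF.ofX lo' (lo' + h)) - k3 K1 (AF.ofX lo' (lo' + h))))).hi ≤ ebt ∧
      (K0.c2 + AF.ofX lo' (lo' + h) * k3 K0 (AF.ofX lo' (lo' + h))).hi ≤ k2 := by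
  intro n
  induction n with
  | zero =>
    intro lo hs a h1 h2
    simp only [serC, Bool.and_eq_true, decide_eq_true_eq] at hs
    refine ⟨lo, h1, ?_, hs.1, hs.2.1⟩
    simpa using h2
  | succ n ih =>
    intro lo hs a h1 h2
    rw [serC] at hs
    simp only [Bool.and_eq_true, decide_eq_true_eq] at hs
    rcases le_or_gt (10000000000 * a) ((lo : ℝ) + h) with h3 | h3
    · exact ⟨lo, h1, h3, hs.1, hs.2.1⟩
    · refine ih (lo + h) hs.2.2 a ?_ ?_
      · push_cast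
        linarith
      · push_cast at h2 ⊢
        linarith

theorem ev_eq (K : Gs ℝ) (a : ℝ) : K.ev a = a * (K.c1 + a * (K.c2 + a * k3 K a)) := by
  unfold Gs.ev k3
  ring

/-- the series bounds for `0 ≤ a ≤ M` -/
theorem ser_bounds (hA : AfsStmt) (hG : GserStmt) {T : Tb AF} {P : Pm} {t z : ℝ} {E : ℕ} {D : Cd}
    (ht : 0 < t) (ht2 : t ≤ Real.pi / 14) (hE0 : 0 < E) (hE : E ≤ 2000)
    (hT : TabAt T P ((E : ℝ) / 10000) t z) (hM : (D.M : ℝ) / 10000000000 ≤ 3 / 4)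
    (hM0 : 0 < (D.M : ℝ) / 10000000000)
    (hs : serC T.K0 T.K1 (D.bt * E / 10000) D.k2 (D.M / 8 + 1) 8 0 = true) {a : ℝ}
    (ha : 0 ≤ a) (haM : a ≤ (D.M : ℝ) / 10000000000) :
    bf t ((E : ℝ) / 10000) a ≤ (D.bt : ℝ) / 10000000000 * a ∧
      gf t 0 a ≤ (D.k2 : ℝ) / 10000000000 * a ^ 2 := by
  have hDM : 0 < D.M := by
    have : (0 : ℝ) < (D.M : ℝ) := by
      by_contra hc
      have : (D.M : ℝ) / 10000000000 ≤ 0 := div_nonpos_of_nonpos_of_nonneg (not_lt.1 hc) (by norm_num)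
      linarith
    exact_mod_cast this
  have hem : (0 : ℝ) < (E : ℝ) / 10000 := by positivity
  have hem2 : (E : ℝ) / 10000 ≤ 1 / 5 := by
    rw [div_le_iff₀ (by norm_num)]
    have : (E : ℝ) ≤ 2000 := by exact_mod_cast hE
    linarith
  have hh1 : 1 ≤ D.M / 8 + 1 := by omega
  have hcov : (D.M : ℝ) ≤ 8 * ((D.M / 8 + 1 : ℤ) : ℝ) := by
    have : D.M ≤ 8 * (D.M / 8 + 1) := by omega
    exact_mod_cast this
  obtain ⟨lo, hlo1, hlo2, c1, c2⟩ := ser_cover 7 0 hs a (by push_cast; linarith) (by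
    have h3 : 10000000000 * a ≤ (D.M : ℝ) := by
      rw [le_div_iff₀ (by norm_num)] at haM
      linarith
    push_cast at hcov ⊢
    linarith)
  obtain ⟨x, hx, hX⟩ := enc_ofX hh1 hlo1 hlo2
  have hy : |(0 : ℝ)| ≤ 1 := by simp
  have hz := hT.1
  have hTb := hT.2.1 x 0 hx hy
  obtain ⟨c80, hc80, g0⟩ := hG t 0 a ht ht2 le_rfl (by norm_num) (by linarith) (by linarith)
  obtain ⟨c81, hc81, g1⟩ := hG t ((E : ℝ) / 10000) a ht ht2 hem.le hem2 (by linarith)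
    (by linarith)
  have k0 := tb_K0 hTb hT.2.2.1 hc80
  have k1 := tb_K1 hTb hT.2.2.2 hc81
  have ea := hX 0 z
  set AX := AF.ofX lo (lo + (D.M / 8 + 1)) with hAX
  have e0 := e_k3 hA hx hy hz k0 ea
  have e1 := e_k3 hA hx hy hz k1 ea
  have f1 := e_hi hA hx hy hz (e_add hA hx hy hz (e_sub hA hx hy hz k0.c1 k1.c1)
    (e_mul hA hx hy hz ea (e_add hA hx hy hz (e_sub hA hx hy hz k0.c2 k1.c2)
      (e_mul hA hx hy hz ea (e_sub hA hx hy hz e0 e1)))))
  have f2 := e_hi hA hx hy hz (e_add hA hx hy hz k0.c2 (e_mul hA hx hy hz ea e0))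
  have c1' : (((T.K0.c1 - T.K1.c1 + AX * (T.K0.c2 - T.K1.c2 + AX *
        (k3 T.K0 AX - k3 T.K1 AX))).hi : ℤ) : ℝ) ≤ ((D.bt * E / 10000 : ℤ) : ℝ) := by
    exact_mod_cast c1
  have c2' : (((T.K0.c2 + AX * k3 T.K0 AX).hi : ℤ) : ℝ) ≤ (D.k2 : ℝ) := by exact_mod_cast c2
  have hdiv : ((D.bt * E / 10000 : ℤ) : ℝ) ≤ (D.bt : ℝ) * ((E : ℝ) / 10000) := by
    have h3 : (D.bt * E / 10000 : ℤ) * 10000 ≤ D.bt * E := Int.ediv_mul_le _ (by norm_num)
    have h4 : ((D.bt * E / 10000 : ℤ) : ℝ) * 10000 ≤ (D.bt : ℝ) * E := by exact_mod_cast h3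
    have h5 : (D.bt : ℝ) * ((E : ℝ) / 10000) = (D.bt : ℝ) * E / 10000 := by ring
    rw [h5, le_div_iff₀ (by norm_num)]
    exact h4
  set K := mkGs t 0 c80 with hK
  set L := mkGs t ((E : ℝ) / 10000) c81 with hL
  have hc10 : K.c1 = 0 := by
    rw [hK]
    simp [mkGs]
  constructor
  · have h3 : gf t 0 a - gf t ((E : ℝ) / 10000) a =
        a * (K.c1 - L.c1 + a * (K.c2 - L.c2 + a * (k3 K a - k3 L a))) := by
      rw [g0, g1, ev_eq, ev_eq]
      ring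
    have h4 : K.c1 - L.c1 + a * (K.c2 - L.c2 + a * (k3 K a - k3 L a)) ≤
        (D.bt : ℝ) / 10000000000 * ((E : ℝ) / 10000) := by
      have h6 : 10000000000 * (K.c1 - L.c1 + a * (K.c2 - L.c2 + a * (k3 K a - k3 L a))) ≤
          (D.bt : ℝ) * ((E : ℝ) / 10000) := f1.trans (c1'.trans hdiv)
      have h7 : (D.bt : ℝ) / 10000000000 * ((E : ℝ) / 10000) =
          ((D.bt : ℝ) * ((E : ℝ) / 10000)) / 10000000000 := by ring
      rw [h7, le_div_iff₀ (by norm_num)]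
      linarith
    unfold bf
    rw [h3, div_le_iff₀ hem]
    calc a * (K.c1 - L.c1 + a * (K.c2 - L.c2 + a * (k3 K a - k3 L a))) ≤
          a * ((D.bt : ℝ) / 10000000000 * ((E : ℝ) / 10000)) := mul_le_mul_of_nonneg_left h4 ha
      _ = _ := by ring
  · have h4 : K.c2 + a * k3 K a ≤ (D.k2 : ℝ) / 10000000000 := by
      rw [le_div_iff₀ (by norm_num)]
      have h6 : 10000000000 * (K.c2 + a * k3 K a) ≤ (D.k2 : ℝ) := f2.trans c2'
      linarith
    rw [g0, ev_eq, hc10]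
    have h5 : a * (0 + a * (K.c2 + a * k3 K a)) = (K.c2 + a * k3 K a) * a ^ 2 := by ring
    rw [h5]
    exact mul_le_mul_of_nonneg_right h4 (sq_nonneg a)

/-- the quadratic inequality -/
theorem quad {A X Y u w c3 : ℝ} (h : 110 * u ^ 2 + 310 * w ^ 2 + 1364 * c3 ≤ 2728) :
    u * (A * X) + w * (A * Y) + c3 * A ^ 2 ≤ 2 * A ^ 2 + 31 / 10 * X ^ 2 + 11 / 10 * Y ^ 2 := by
  have h1 : 0 ≤ (u * A - 62 / 10 * X) ^ 2 := sq_nonneg _
  have h2 : 0 ≤ (w * A - 22 / 10 * Y) ^ 2 := sq_nonneg _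
  have h3 : 0 ≤ (2728 - (110 * u ^ 2 + 310 * w ^ 2 + 1364 * c3)) * A ^ 2 :=
    mul_nonneg (by linarith) (sq_nonneg _)
  nlinarith [h1, h2, h3]

/-- PACKET S3S -/
theorem s3s (hA : AfsStmt) (hG : GserStmt) (hB : BebStmt) (hE : EknStmt) : S3sStmt := by
  intro T P t z E D M cq ht ht2 hE0 hE2 hT hM hM0 hM1 hcq hexp hs3 hser e a x y he heE ha haM
  have hem : (0 : ℝ) < (E : ℝ) / 10000 := by positivity
  have hem2 : (E : ℝ) / 10000 ≤ 1 / 5 := by
    rw [div_le_iff₀ (by norm_num)]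
    have : (E : ℝ) ≤ 2000 := by exact_mod_cast hE2
    linarith
  obtain ⟨b1, b2, b3, -, -⟩ := hB t e ((E : ℝ) / 10000) a M cq ht ht2 he heE hem2 ha haM hM0 hM1
    hcq hexp
  -- the scalar conditions
  simp only [s3C, Bool.and_eq_true, decide_eq_true_eq] at hs3
  obtain ⟨⟨⟨s1, s2⟩, s3⟩, s4⟩ := hs3
  have hek := hE P t ht ht2
  have h01 : |(0 : ℝ)| ≤ 1 := by simp
  obtain ⟨ma, mb, mk⟩ := tb_el (hT.2.1 0 0 h01 h01)
  have ma' := e_mag hA h01 h01 hT.1 ma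
  have mb' := e_mag hA h01 h01 hT.1 mb
  have mk' := e_mag hA h01 h01 hT.1 mk
  have s1' : (10000000000 : ℝ) ≤ (D.bt : ℝ) := by exact_mod_cast s1
  have s2' : (0 : ℝ) ≤ (D.k2 : ℝ) := by exact_mod_cast s2
  have s4' : 110 * (40000000000 * 10000000000 + (D.bt : ℝ) * (T.C.el.a.mag : ℝ)) ^ 2
      + 310 * ((D.bt : ℝ) * (T.C.el.b.mag : ℝ)) ^ 2
      + 1364 * (2 * (D.bt : ℝ) * (D.k2 : ℝ) * (D.M : ℝ) * (T.C.ek.mag : ℝ))
      ≤ 2728 * (10000000000 : ℝ) ^ 4 := by exact_mod_cast s4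
  set β : ℝ := (D.bt : ℝ) / 10000000000 with hβ
  have hβ1 : 1 ≤ β := by
    rw [hβ, le_div_iff₀ (by norm_num)]
    linarith
  set pa : ℝ := (T.C.el.a.mag : ℝ) / 10000000000 with hpa
  set qa : ℝ := (T.C.el.b.mag : ℝ) / 10000000000 with hqa
  set ea : ℝ := (T.C.ek.mag : ℝ) / 10000000000 with hea
  set κ : ℝ := (D.k2 : ℝ) / 10000000000 with hκ
  have hκ0 : 0 ≤ κ := by positivity
  have hea0 : 0 ≤ ea := by positivity
  have hpa0 : 0 ≤ pa := by positivity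
  have hqa0 : 0 ≤ qa := by positivity
  have key : 110 * (4 + β * pa) ^ 2 + 310 * (β * qa) ^ 2 + 1364 * (2 * β * κ * M * ea) ≤ 2728 := by
    have e1 : (D.bt : ℝ) = 10000000000 * β := by rw [hβ]; ring
    have e2 : (T.C.el.a.mag : ℝ) = 10000000000 * pa := by rw [hpa]; ring
    have e3 : (T.C.el.b.mag : ℝ) = 10000000000 * qa := by rw [hqa]; ring
    have e4 : (T.C.ek.mag : ℝ) = 10000000000 * ea := by rw [hea]; ring
    have e5 : (D.k2 : ℝ) = 10000000000 * κ := by rw [hκ]; ring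
    have e6 : (D.M : ℝ) = 10000000000 * M := by rw [hM]; ring
    rw [e1, e2, e3, e4, e5, e6] at s4'
    nlinarith [s4']
  have la : |(mkCf P t).el.a| ≤ pa := by
    rw [hpa, le_div_iff₀ (by norm_num)]
    rw [abs_mul, abs_of_pos (by norm_num : (0 : ℝ) < 10000000000)] at ma'
    have : |(mkTb P ((E : ℝ) / 10000) t).C.el.a| = |(mkCf P t).el.a| := rfl
    rw [this] at ma'
    linarith
  have lb : |(mkCf P t).el.b| ≤ qa := by
    rw [hqa, le_div_iff₀ (by norm_num)]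
    rw [abs_mul, abs_of_pos (by norm_num : (0 : ℝ) < 10000000000)] at mb'
    have : |(mkTb P ((E : ℝ) / 10000) t).C.el.b| = |(mkCf P t).el.b| := rfl
    rw [this] at mb'
    linarith
  have lk : |(mkCf P t).ek| ≤ ea := by
    rw [hea, le_div_iff₀ (by norm_num)]
    rw [abs_mul, abs_of_pos (by norm_num : (0 : ℝ) < 10000000000)] at mk'
    have : |(mkTb P ((E : ℝ) / 10000) t).C.ek| = |(mkCf P t).ek| := rfl
    rw [this] at mk'
    linarith
  -- bound of `bf`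
  have hbb : |bf t e a| ≤ β * |a| ∧ 0 ≤ a * bf t e a ∧
      -(2 * bf t e a * gf t 0 a * (mkCf P t).ek) ≤ 2 * β * κ * M * ea * a ^ 2 := by
    rcases le_total 0 a with h0 | h0
    · obtain ⟨c1, c2⟩ := b1 h0
      obtain ⟨d1, d2⟩ := ser_bounds hA hG ht ht2 hE0 hE2 hT (by rw [← hM]; exact hM1)
        (by rw [← hM]; exact hM0) hser h0 (by rw [← hM]; exact haM)
      have c3 : bf t e a ≤ β * a := c2.trans d1
      refine ⟨?_, mul_nonneg h0 c1, ?_⟩
      · rw [abs_of_nonneg c1, abs_of_nonneg h0]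
        exact c3
      · have f1 : -(mkCf P t).ek ≤ ea := by
          rw [abs_le] at lk
          linarith [lk.1]
        have f2 : bf t e a * gf t 0 a ≤ (β * a) * (κ * a ^ 2) :=
          mul_le_mul c3 d2 b3 (by positivity)
        have f3 : bf t e a * gf t 0 a * -(mkCf P t).ek ≤ (β * a) * (κ * a ^ 2) * ea :=
          mul_le_mul f2 f1 (by linarith) (by positivity)
        have f4 : (β * a) * (κ * a ^ 2) * ea ≤ (β * M) * (κ * a ^ 2) * ea := by
          have : β * a ≤ β * M := mul_le_mul_of_nonneg_left haM (by linarith)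
          exact mul_le_mul_of_nonneg_right (mul_le_mul_of_nonneg_right this (by positivity)) hea0
        nlinarith [f3, f4]
    · obtain ⟨c1, c2⟩ := b2 h0
      refine ⟨?_, mul_nonneg_of_nonpos_of_nonpos h0 c2, ?_⟩
      · rw [abs_of_nonpos c2, abs_of_nonpos h0]
        nlinarith
      · have f1 : 0 ≤ bf t e a * gf t 0 a * (mkCf P t).ek := by
          have : bf t e a * gf t 0 a ≤ 0 := mul_nonpos_of_nonpos_of_nonneg c2 b3
          exact mul_nonneg_of_nonpos_of_nonpos this hek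
        have f2 : 0 ≤ 2 * β * κ * M * ea * a ^ 2 := by positivity
        linarith
  obtain ⟨g1, g2, g3⟩ := hbb
  refine ⟨g1, g2, ?_⟩
  have t1 : -(bf t e a * (mkCf P t).el.ev x y) ≤ β * |a| * (pa * |x| + qa * |y|) := by
    have f1 : |(mkCf P t).el.ev x y| ≤ pa * |x| + qa * |y| := by
      unfold H1.ev
      refine (abs_add_le _ _).trans ?_
      rw [abs_mul, abs_mul]
      exact add_le_add (mul_le_mul_of_nonneg_right la (abs_nonneg x))
        (mul_le_mul_of_nonneg_right lb (abs_nonneg y))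
    calc -(bf t e a * (mkCf P t).el.ev x y) ≤ |bf t e a * (mkCf P t).el.ev x y| := neg_le_abs _
      _ = |bf t e a| * |(mkCf P t).el.ev x y| := abs_mul _ _
      _ ≤ β * |a| * (pa * |x| + qa * |y|) :=
          mul_le_mul g1 f1 (abs_nonneg _) (by positivity)
  have t3 : bf t e a ^ 2 * (e + (E : ℝ) / 10000) * (mkCf P t).ek ≤ 0 :=
    mul_nonpos_of_nonneg_of_nonpos (by positivity) hek
  have q1 := quad (A := |a|) (X := |x|) (Y := |y|) (u := 4 + β * pa) (w := β * qa)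
    (c3 := 2 * β * κ * M * ea) key
  have q2 : 2 * (|a| - |x|) ^ 2 ≤ 2 * (a - x) ^ 2 := by
    have : (|a| - |x|) ^ 2 ≤ (a - x) ^ 2 := sq_le_sq.2 (abs_abs_sub_abs_le a x)
    linarith
  have q3 : |a| ^ 2 = a ^ 2 := sq_abs a
  have q4 : |x| ^ 2 = x ^ 2 := sq_abs x
  have q5 : |y| ^ 2 = y ^ 2 := sq_abs y
  rw [q3] at q1
  nlinarith [t1, t3, q1, q2, g3]

end Pool.Agent.Helper79.DL
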